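import Pool.Agent.KS6_94.SK.Proof

/-!
# Compact sets mapping onto the Cantor space
-/

set_option autoImplicit false

open Set Topology Filter TopologicalSpace
open Pool.Agent.KS6_94.SK

universe u

namespace Pool.Agent.KS6_94.PS

variable {K : Type u} [TopologicalSpace K] {A : Set K}

/-- A closed Čech-complete subspace which is not scattered contains a compact set which maps
continuously onto the Cantor space. -/
theorem exists_onto_cantor [T3Space K] (hAc : IsClosed A) (hA : CechComplete A)
    (h : ¬ Scattered A) : ∃ C : Set K, IsCompact C ∧ ∃ β : C → (ℕ → Bool), Continuous β ∧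
      Function.Surjective β := by
  obtain ⟨U, hU, hUc⟩ := hA
  unfold Scattered at h
  push Not at h
  obtain ⟨S₀, hSne₀, hS₀⟩ := h
  let S : Set K := Subtype.val '' S₀
  have hSne : S.Nonempty := hSne₀.image _
  have hSA : S ⊆ A := by
    rintro _ ⟨y, _, rfl⟩
    exact y.2
  have hpre : Preperfect S := by
    rw [preperfect_iff_nhds]
    rintro _ ⟨x, hx, rfl⟩ O hO
    obtain ⟨V, hVO, hV, hxV⟩ := mem_nhds_iff.1 hO
    by_contra hcon
    push Not at hcon
    apply hS₀ x hx (Subtype.val ⁻¹' V) (hV.preimage continuous_subtype_val)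
    ext y
    constructor
    · rintro ⟨hy1, hy2⟩
      exact Subtype.ext (hcon y ⟨hVO hy1, ⟨y, hy2, rfl⟩⟩)
    · rintro rfl
      exact ⟨hxV, hx⟩
  let R : NP A := ⟨closure S, hpre.perfect_closure, hSne.closure, closure_minimal hSA hAc⟩
  have hspl : ∀ n, ∀ C : NP A, ∃ s : Bool → NP A,
      (∀ b, (s b).1 ⊆ C.1 ∧ ∃ V ∈ U n, Subtype.val ⁻¹' (s b).1 ⊆ V) ∧
      Disjoint (s true).1 (s false).1 := fun n C => exists_split (hU n).1 (hU n).2 C
  choose sp hsp hd using hspl
  have hanti : ∀ x n, (T sp R x (n + 1)).1 ⊆ (T sp R x n).1 := fun x n => (hsp n _ (x n)).1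
  have hanti' : ∀ x, Antitone fun n => (T sp R x n).1 := fun x => antitone_nat_of_succ_le (hanti x)
  have hbr : ∀ x, ∃ z : K, ∀ n, z ∈ (T sp R x n).1 := by
    intro x
    let F : Filter A := ⨅ n, 𝓟 (Subtype.val ⁻¹' (T sp R x n).1)
    have hF : ∀ n, Subtype.val ⁻¹' (T sp R x n).1 ∈ F := fun n =>
      mem_iInf_of_mem n (mem_principal_self _)
    have hne : F.NeBot := by
      refine iInf_neBot_of_directed' ?_ ?_
      · intro i j
        refine ⟨max i j, ?_, ?_⟩
        · exact principal_mono.2 (preimage_mono (hanti' x (le_max_left i j)))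
        · exact principal_mono.2 (preimage_mono (hanti' x (le_max_right i j)))
      · intro n
        obtain ⟨y, hy⟩ := (T sp R x n).2.2.1
        exact principal_neBot_iff.2 ⟨⟨y, (T sp R x n).2.2.2 hy⟩, hy⟩
    obtain ⟨z, hz⟩ := hUc F hne fun n => by
      obtain ⟨V, hV, hTV⟩ := (hsp n (T sp R x n) (x n)).2
      exact ⟨V, hV, mem_of_superset (hF (n + 1)) hTV⟩
    refine ⟨z, fun n => ?_⟩
    have h1 : z ∈ closure (Subtype.val ⁻¹' (T sp R x n).1) :=
      mem_closure_iff_clusterPt.2 (hz.mono (le_principal_iff.2 (hF n)))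
    have h2 : IsClosed (Subtype.val ⁻¹' (T sp R x n).1 : Set A) :=
      (T sp R x n).2.1.closed.preimage continuous_subtype_val
    rw [h2.closure_eq] at h1
    exact h1
  choose p hp using hbr
  have hfin : ∀ n, (range fun x => (T sp R x n).1).Finite := by
    intro n
    refine (Set.finite_range fun y : Fin n → Bool =>
      (T sp R (fun k => if h : k < n then y ⟨k, h⟩ else false) n).1).subset ?_
    rintro _ ⟨x, rfl⟩
    refine ⟨fun i => x i, ?_⟩
    have h1 : T sp R (fun k => if h : k < n then x (⟨k, h⟩ : Fin n) else false) n = T sp R x n :=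
      T_congr sp R fun k hk => by simp [hk]
    exact congrArg Subtype.val h1
  let C : Set K := ⋂ n, ⋃₀ (range fun x => (T sp R x n).1)
  have hCc : IsClosed C := isClosed_iInter fun n => by
    rw [sUnion_eq_biUnion]
    refine (hfin n).isClosed_biUnion ?_
    rintro _ ⟨x, rfl⟩
    exact (T sp R x n).2.1.closed
  have hCcpt : IsCompact C := by
    rw [isCompact_iff_ultrafilter_le_nhds]
    intro f hf
    have hCf : C ∈ f := hf (mem_principal_self C)
    have hTf : ∀ n, ∃ x, (T sp R x n).1 ∈ f := by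
      intro n
      have h1 : ⋃₀ (range fun x => (T sp R x n).1) ∈ f := mem_of_superset hCf (iInter_subset _ n)
      obtain ⟨t, ⟨x, rfl⟩, ht⟩ := (Ultrafilter.finite_sUnion_mem_iff (hfin n)).1 h1
      exact ⟨x, ht⟩
    have hAf : range (Subtype.val : A → K) ∈ f := by
      obtain ⟨x, hx⟩ := hTf 0
      rw [Subtype.range_coe]
      exact mem_of_superset hx (T sp R x 0).2.2.2
    let f' : Ultrafilter A := f.comap Subtype.val_injective hAf
    obtain ⟨z, hz⟩ := hUc f' f'.neBot fun n => by
      obtain ⟨x, hx⟩ := hTf (n + 1)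
      obtain ⟨V, hV, hTV⟩ := (hsp n (T sp R x n) (x n)).2
      refine ⟨V, hV, mem_of_superset ?_ hTV⟩
      exact preimage_mem_comap hx
    have h2 : (f' : Filter A) ≤ 𝓝 z := Ultrafilter.clusterPt_iff.1 hz
    have h3 : (f : Filter K) ≤ 𝓝 (z : K) := by
      have h4 : Filter.map Subtype.val (f' : Filter A) = f := by
        rw [Ultrafilter.coe_comap]
        exact Filter.map_comap_of_mem hAf
      rw [← h4]
      exact (Filter.map_mono h2).trans continuous_subtype_val.continuousAt
    refine ⟨z, ?_, h3⟩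
    rw [← hCc.closure_eq]
    exact mem_closure_iff_ultrafilter.2 ⟨f, hCf, h3⟩
  have huniq : ∀ (z : K) (x y : ℕ → Bool) (n : ℕ), z ∈ (T sp R x n).1 → z ∈ (T sp R y n).1 →
      ∀ k < n, x k = y k := by
    intro z x y n
    induction n with
    | zero => intro _ _ k hk; omega
    | succ n ih =>
      intro hx hy k hk
      have hx' := hanti x n hx
      have hy' := hanti y n hy
      have h1 := ih hx' hy'
      rcases Nat.lt_succ_iff_lt_or_eq.1 hk with hk | rfl
      · exact h1 k hk
      · have h2 : T sp R x k = T sp R y k := T_congr sp R h1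
        have h3 : z ∈ (sp k (T sp R x k) (x k)).1 := hx
        have h4 : z ∈ (sp k (T sp R y k) (y k)).1 := hy
        rw [← h2] at h4
        exact sp_disj sp hd _ h3 h4
  have hex : ∀ z : C, ∀ n, ∃ x : ℕ → Bool, (z : K) ∈ (T sp R x n).1 := by
    intro z n
    obtain ⟨_, ⟨x, rfl⟩, hx⟩ := mem_iInter.1 z.2 n
    exact ⟨x, hx⟩
  choose ξ hξ using hex
  let β : C → (ℕ → Bool) := fun z n => ξ z (n + 1) n
  have hval : ∀ (z : C) (x : ℕ → Bool) (n : ℕ), (z : K) ∈ (T sp R x (n + 1)).1 → β z n = x n :=
    fun z x n hx => huniq z _ _ (n + 1) (hξ z (n + 1)) hx n (Nat.lt_succ_self n)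
  refine ⟨C, hCcpt, β, ?_, ?_⟩
  · refine continuous_pi fun n => ?_
    have hcl : ∀ b : Bool, IsClosed {z : C | β z n = b} := by
      intro b
      have h1 : {z : C | β z n = b} = Subtype.val ⁻¹'
          (⋃ t ∈ (fun x => (T sp R x (n + 1)).1) '' {x | x n = b}, t) := by
        ext z
        simp only [mem_ofPred_eq, mem_preimage, mem_iUnion, mem_image, exists_prop]
        constructor
        · intro hz
          exact ⟨_, ⟨ξ z (n + 1), hz, rfl⟩, hξ z (n + 1)⟩
        · rintro ⟨_, ⟨x, hx, rfl⟩, hz⟩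
          rw [hval z x n hz, hx]
      rw [h1]
      refine IsClosed.preimage continuous_subtype_val ?_
      refine ((hfin (n + 1)).subset (image_subset_range _ _)).isClosed_biUnion ?_
      rintro _ ⟨x, _, rfl⟩
      exact (T sp R x (n + 1)).2.1.closed
    refine continuous_discrete_rng.2 fun b => ?_
    have h2 : (fun z => β z n) ⁻¹' {b} = {z : C | β z n = !b}ᶜ := by
      ext z
      simp only [mem_preimage, mem_singleton_iff, mem_compl_iff, mem_ofPred_eq]
      cases β z n <;> cases b <;> simp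
    rw [h2]
    exact (hcl _).isOpen_compl
  · intro x
    refine ⟨⟨p x, mem_iInter.2 fun n => ⟨_, ⟨x, rfl⟩, hp x n⟩⟩, ?_⟩
    funext n
    exact hval _ x n (hp x (n + 1))

end Pool.Agent.KS6_94.PS
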