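import Pool.Agent.KS6_94.PS.Usco
import Pool.Agent.KS6_94.PS.Cantor
import Pool.Graph.R_seed8.Y365.PR.Cpx
import Pool.Graph.R_pool_sql_team_seeded_efc1946e.K1H66.TV.Perf

/-!
# Function spaces over K-analytic spaces in pseudoradial spaces
-/

set_option autoImplicit false

open Set Topology Filter MeasureTheory
open Pool.Agent.Helper888.PR Pool.Agent.Y365.PR Pool.Agent.KS6_94.SK

universe u v w

namespace Pool.Agent.KS6_94.PS

/-- Countable tightness of `C_p(X)` if the finite powers of `X` are Lindelöf. -/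
theorem countable_tight' {X : Type u} [TopologicalSpace X] (hL : ∀ n, LindelofSpace (Fin n → X))
    {A : Set (CpX X)} {f : CpX X} (hf : f ∈ closure A) :
    ∃ B ⊆ A, B.Countable ∧ f ∈ closure B := by
  classical
  have hfin : ∀ n k : ℕ, ∃ B : Set (CpX X), B ⊆ A ∧ B.Countable ∧
      ∀ p : Fin n → X, ∃ g ∈ B, ∀ i, |g.1 (p i) - f.1 (p i)| < 1 / ((k : ℝ) + 1) := by
    intro n k
    have hpos : (0 : ℝ) < 1 / ((k : ℝ) + 1) := by positivity
    have h1 : ∀ p : Fin n → X, ∃ g ∈ A, ∀ i, |g.1 (p i) - f.1 (p i)| < 1 / ((k : ℝ) + 1) := by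
      intro p
      have hW : {g : CpX X | ∀ i, |g.1 (p i) - f.1 (p i)| < 1 / ((k : ℝ) + 1)} ∈ 𝓝 f := by
        have ho : IsOpen {g : CpX X | ∀ i, |g.1 (p i) - f.1 (p i)| < 1 / ((k : ℝ) + 1)} := by
          have : {g : CpX X | ∀ i, |g.1 (p i) - f.1 (p i)| < 1 / ((k : ℝ) + 1)}
              = ⋂ i, {g : CpX X | |g.1 (p i) - f.1 (p i)| < 1 / ((k : ℝ) + 1)} := by
            ext g; simp
          rw [this]
          refine isOpen_iInter_of_finite fun i => isOpen_lt ?_ continuous_const
          exact (((continuous_apply (p i)).comp continuous_subtype_val).sub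
            continuous_const).abs
        refine ho.mem_nhds ?_
        intro i
        rw [sub_self, abs_zero]
        exact hpos
      obtain ⟨g, hg1, hg2⟩ := mem_closure_iff_nhds.1 hf _ hW
      exact ⟨g, hg2, hg1⟩
    choose g hgA hg using h1
    let U : (Fin n → X) → Set (Fin n → X) := fun p =>
      {p' | ∀ i, |(g p).1 (p' i) - f.1 (p' i)| < 1 / ((k : ℝ) + 1)}
    have hUo : ∀ p, IsOpen (U p) := by
      intro p
      have : U p = ⋂ i, {p' : Fin n → X | |(g p).1 (p' i) - f.1 (p' i)| < 1 / ((k : ℝ) + 1)} := by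
        ext p'; simp [U]
      rw [this]
      refine isOpen_iInter_of_finite fun i => isOpen_lt ?_ continuous_const
      exact (((g p).2.comp (continuous_apply i)).sub (f.2.comp (continuous_apply i))).abs
    have := hL n
    obtain ⟨s, hsc, hs⟩ := isLindelof_univ.elim_countable_subcover U hUo (by
      intro p _
      exact mem_iUnion.2 ⟨p, hg p⟩)
    refine ⟨g '' s, ?_, hsc.image g, ?_⟩
    · rintro _ ⟨p, _, rfl⟩
      exact hgA p
    · intro p
      obtain ⟨p', hp', hp⟩ := mem_iUnion₂.1 (hs (mem_univ p))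
      exact ⟨g p', ⟨p', hp', rfl⟩, hp⟩
  choose B hBA hBf hB using hfin
  refine ⟨⋃ n, ⋃ k, B n k, ?_, ?_, ?_⟩
  · exact iUnion_subset fun n => iUnion_subset fun k => hBA n k
  · exact countable_iUnion fun n => countable_iUnion fun k => hBf n k
  · rw [mem_closure_iff_nhds]
    intro W hW
    obtain ⟨F, ε, hε, hF⟩ := nhds_Cp hW
    obtain ⟨k, hk⟩ := exists_nat_one_div_lt hε
    obtain ⟨g, hg1, hg2⟩ := hB F.card k (fun i => (F.equivFin.symm i : X))
    refine ⟨g, hF g ?_, mem_iUnion₂.2 ⟨F.card, k, hg1⟩⟩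
    intro t ht
    have := hg2 (F.equivFin ⟨t, ht⟩)
    simp only [Equiv.symm_apply_apply] at this
    exact this.trans hk

/-- An uncountable analytic set contains a continuous injective image of the Cantor space. -/
theorem cantor_of_analytic {Y : Type*} [TopologicalSpace Y] [PolishSpace Y] {s : Set Y}
    (hs : AnalyticSet s) (hc : ¬ s.Countable) :
    ∃ j : (ℕ → Bool) → Y, Continuous j ∧ Function.Injective j ∧ range j ⊆ s := by
  obtain ⟨H, _, _, g, hg, rfl⟩ := analyticSet_iff_exists_polishSpace_range.1 hs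
  borelize Y
  borelize H
  obtain ⟨j, hj, -, hinj⟩ := Pool.Agent.K1H66.TV.borel_perfect (f := g) hg.measurable
    (B := univ) MeasurableSet.univ (by rwa [image_univ])
  exact ⟨g ∘ j, hg.comp hj, hinj, by rintro _ ⟨c, rfl⟩; exact ⟨j c, rfl⟩⟩

/-- Images of `X` in countable powers of the line are countable. -/
theorem countable_image' {X : Type u} [TopologicalSpace X]
    (hA : ∀ q : X → (ℕ → ℝ), Continuous q → AnalyticSet (range q)) (hX : ¬ MapsOntoI X)
    {T : Type v} [Countable T] (q : X → (T → ℝ)) (hq : Continuous q) : (range q).Countable := by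
  rcases isEmpty_or_nonempty T with hT | hT
  · exact Set.to_countable _
  obtain ⟨s, hs⟩ := exists_surjective_nat T
  let q' : X → (ℕ → ℝ) := fun x n => q x (s n)
  have hq' : Continuous q' := continuous_pi fun n => (continuous_apply (s n)).comp hq
  have h1 : (range q').Countable := by
    by_contra hc
    obtain ⟨j, hj, hinj, hjr⟩ := cantor_of_analytic (hA q' hq') hc
    obtain ⟨h, hh, hhs⟩ := onto_of_cantor j hj hinj
    apply hX
    refine ⟨h ∘ q', hh.comp hq', fun t => ?_⟩
    obtain ⟨c, hcc⟩ := hhs t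
    obtain ⟨x, hx⟩ := hjr ⟨c, rfl⟩
    exact ⟨x, by rw [Function.comp_apply, hx, hcc]⟩
  have h2 : range q' = (fun (y : T → ℝ) (n : ℕ) => y (s n)) '' range q := by
    rw [← range_comp]
    rfl
  rw [h2] at h1
  refine Set.countable_of_injective_of_countable_image ?_ h1
  intro y _ z _ hyz
  funext t
  obtain ⟨n, rfl⟩ := hs t
  exact congrFun hyz n

/-- The Fréchet-Urysohn property of `C_p(X)`. -/
theorem frechet_of {X : Type u} [TopologicalSpace X] (hL : ∀ n, LindelofSpace (Fin n → X))
    (hA : ∀ q : X → (ℕ → ℝ), Continuous q → AnalyticSet (range q))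
    (hX : ¬ MapsOntoI X) : FrechetUrysohnSpace (CpX X) := by
  classical
  constructor
  intro A f hf
  obtain ⟨B, hBA, hBc, hfB⟩ := countable_tight' hL hf
  let T : Set (CpX X) := insert f B
  have hTc : Countable T := (hBc.insert f).to_subtype
  let q : X → (T → ℝ) := fun x g => g.1.1 x
  have hq : Continuous q := continuous_pi fun g => g.1.2
  have hY : (range q).Countable := countable_image' hA hX q hq
  have hYc : Countable (range q) := hY.to_subtype
  have hch : ∀ y : range q, ∃ x, q x = y.1 := fun y => y.2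
  choose ξ hξ using hch
  have hagree : ∀ (g : CpX X), g ∈ T → ∀ x, g.1 x = g.1 (ξ ⟨q x, x, rfl⟩) := by
    intro g hg x
    have := congrFun (hξ ⟨q x, x, rfl⟩) ⟨g, hg⟩
    exact this.symm
  let R : CpX X → (range q → ℝ) := fun g y => g.1 (ξ y)
  have hR : Continuous R := continuous_pi fun y =>
    (continuous_apply (ξ y)).comp continuous_subtype_val
  have hRf : R f ∈ closure (R '' B) :=
    image_closure_subset_closure_image hR ⟨f, hfB, rfl⟩
  rw [mem_closure_iff_seq_limit] at hRf
  obtain ⟨z, hz, hzf⟩ := hRf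
  choose b hbB hbz using hz
  refine ⟨b, fun n => hBA (hbB n), ?_⟩
  rw [tendsto_subtype_rng, tendsto_pi_nhds]
  intro x
  have h1 : ∀ n, (b n).1 x = z n ⟨q x, x, rfl⟩ := by
    intro n
    rw [hagree (b n) (mem_insert_of_mem _ (hbB n)) x, ← hbz n]
  have h2 : f.1 x = R f ⟨q x, x, rfl⟩ := hagree f (mem_insert _ _) x
  simp only [h1, h2]
  exact (tendsto_pi_nhds.1 hzf) _

theorem not_countable_Icc : ¬ (Icc (0 : ℝ) 1).Countable := by
  intro h
  have h1 : volume (Icc (0 : ℝ) 1) = 0 := h.measure_zero _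
  rw [Real.volume_Icc] at h1
  norm_num at h1

/-- First part. -/
theorem tfaeA (X : Type u) [TopologicalSpace X] [T3Space X]
    (hL : ∀ n, LindelofSpace (Fin n → X))
    (hA : ∀ q : X → (ℕ → ℝ), Continuous q → AnalyticSet (range q)) :
    [(∃ (Z : Type u) (_ : TopologicalSpace Z), T3Space Z ∧ Pseudoradial Z ∧
        ∃ e : CpX X → Z, IsEmbedding e),
      FrechetUrysohnSpace (CpX X), ¬ MapsOntoI X,
      ∀ f : X → ℝ, Continuous f → (range f).Countable].TFAE := by
  tfae_have 1 → 3 := by
    rintro ⟨Z, _, _, hZ, e, he⟩ h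
    exact no_embed h hZ he
  tfae_have 3 → 2 := frechet_of hL hA
  tfae_have 2 → 1 := fun h =>
    ⟨CpX X, inferInstance, inferInstance, pseudoradial_of_frechet _, id, IsEmbedding.id⟩
  tfae_have 3 → 4 := by
    intro h f hf
    have h1 := countable_image' hA h (fun (x : X) (_ : Unit) => f x) (continuous_pi fun _ => hf)
    refine (h1.image fun y => y ()).mono ?_
    rintro _ ⟨x, rfl⟩
    exact ⟨_, ⟨x, rfl⟩, rfl⟩
  tfae_have 4 → 3 := by
    rintro h ⟨q, hq, hs⟩
    apply not_countable_Icc
    refine (h (fun x => (q x : ℝ)) (continuous_subtype_val.comp hq)).mono ?_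
    intro t ht
    obtain ⟨x, hx⟩ := hs ⟨t, ht⟩
    exact ⟨x, congrArg Subtype.val hx⟩
  tfae_finish

/-- A compact space which maps onto the interval is not scattered. -/
theorem not_scattered_aux {C : Type u} [TopologicalSpace C] [CompactSpace C] [T2Space C]
    (q : C → ULift.{u} I01) (hq : Continuous q) (hs : Function.Surjective q) :
    ¬ Scattered C := by
  intro hC
  obtain ⟨E, hE, hEq, hmin⟩ := exists_compact_surjective_zorn_subset hq hs
  have hEne : E.Nonempty := by
    rw [nonempty_iff_ne_empty]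
    rintro rfl
    rw [image_empty] at hEq
    have h0 : (ULift.up ⟨0, by norm_num, by norm_num⟩ : ULift.{u} I01) ∈ (univ : Set _) :=
      mem_univ _
    rw [← hEq] at h0
    exact h0
  obtain ⟨e, he, U, hU, hUE⟩ := hC E hEne
  have heU : e ∈ U := by
    have : e ∈ U ∩ E := by rw [hUE]; rfl
    exact this.1
  let E₀ : Set E := Subtype.val ⁻¹' Uᶜ
  have hE₀c : IsClosed E₀ := hU.isClosed_compl.preimage continuous_subtype_val
  have hE₀ : E₀ ≠ univ := by
    intro h
    have : (⟨e, he⟩ : E) ∈ E₀ := by rw [h]; exact mem_univ _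
    exact this heU
  have h1 := hmin E₀ hE₀ hE₀c
  have h2 : IsClosed (E.domRestrict q '' E₀) := by
    have h3 : IsCompact E₀ := hE₀c.isCompact
    exact (h3.image (hq.comp continuous_subtype_val)).isClosed
  -- the complement is the open set `{q e}`
  have h4 : (E.domRestrict q '' E₀)ᶜ ⊆ {q e} := by
    intro t ht
    obtain ⟨z, hz, rfl⟩ : t ∈ q '' E := by rw [hEq]; exact mem_univ t
    by_cases hzU : z ∈ U
    · have : z ∈ U ∩ E := ⟨hzU, hz⟩
      rw [hUE] at this
      rw [mem_singleton_iff.1 this]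
      rfl
    · exact absurd ⟨⟨z, hz⟩, hzU, rfl⟩ ht
  have h5 : ((E.domRestrict q '' E₀)ᶜ).Nonempty := by
    rw [nonempty_compl]
    exact h1
  have h6 : (E.domRestrict q '' E₀)ᶜ = {q e} :=
    (subset_singleton_iff_eq.1 h4).resolve_left h5.ne_empty
  have h7 : IsOpen ({q e} : Set (ULift.{u} I01)) := by
    rw [← h6]
    exact h2.isOpen_compl
  have h8 : IsOpen ({(q e).down} : Set I01) := by
    have h9 := h7.preimage (continuous_uliftUp (X := I01))
    have h10 : ULift.up ⁻¹' ({q e} : Set (ULift.{u} I01)) = {(q e).down} := by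
      ext t
      simp only [mem_preimage, mem_singleton_iff]
      constructor
      · rintro h
        rw [← h]
      · rintro rfl
        rfl
    rwa [h10] at h9
  have : PreconnectedSpace I01 := Subtype.preconnectedSpace isPreconnected_Icc
  have h9 : IsClopen ({(q e).down} : Set I01) := ⟨isClosed_singleton, h8⟩
  rcases isClopen_iff.1 h9 with h | h
  · exact singleton_ne_empty _ h
  · have h10 : (⟨0, by norm_num, by norm_num⟩ : I01) = (q e).down := by
      have : (⟨0, by norm_num, by norm_num⟩ : I01) ∈ ({(q e).down} : Set I01) := by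
        rw [h]; exact mem_univ _
      exact this
    have h11 : (⟨1, by norm_num, by norm_num⟩ : I01) = (q e).down := by
      have : (⟨1, by norm_num, by norm_num⟩ : I01) ∈ ({(q e).down} : Set I01) := by
        rw [h]; exact mem_univ _
      exact this
    have h12 := congrArg Subtype.val (h10.trans h11.symm)
    norm_num at h12

theorem not_scattered_of_onto {C : Type u} [TopologicalSpace C] [CompactSpace C] [T2Space C]
    (q : C → I01) (hq : Continuous q) (hs : Function.Surjective q) : ¬ Scattered C :=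
  not_scattered_aux (fun x => ULift.up (q x)) (continuous_uliftUp.comp hq)
    fun t => (hs t.down).imp fun x hx => by
      show ULift.up (q x) = t
      rw [hx]

/-- A K-analytic space which maps onto the interval contains a compact set which is not scattered. -/
theorem exists_compact_not_scattered {X : Type u} [TopologicalSpace X] [T2Space X]
    (hX : KAnalytic X) (h : MapsOntoI X) : ∃ C : Set X, IsCompact C ∧ ¬ Scattered C := by
  obtain ⟨q, hq, hs⟩ := h
  obtain ⟨F, hF1, hF2, hF3⟩ := hX
  have hF : Usco F := ⟨hF1, hF2⟩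
  let H : Set ((ℕ → ℕ) × I01) := {z | z.2 ∈ q '' F z.1}
  have hH : IsClosed H := usco_graph (usco_image hF hq)
  have hHp : PolishSpace H := hH.polishSpace
  have hrange : range (fun z : H => z.1.2) = univ := by
    rw [eq_univ_iff_forall]
    intro t
    obtain ⟨x, rfl⟩ := hs t
    obtain ⟨a, ha⟩ := mem_iUnion.1 (by rw [hF3]; exact mem_univ x : x ∈ ⋃ a, F a)
    exact ⟨⟨(a, q x), ⟨x, ha, rfl⟩⟩, rfl⟩
  have hnc : ¬ (univ : Set I01).Countable := by
    intro h
    apply not_countable_Icc
    have := h.image Subtype.val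
    rwa [image_univ, Subtype.range_coe] at this
  borelize ↥H
  have hcont : Continuous (fun z : H => z.1.2) := continuous_snd.comp continuous_subtype_val
  obtain ⟨j, hj, -, hinj⟩ := Pool.Agent.K1H66.TV.borel_perfect (f := fun z : H => z.1.2)
    hcont.measurable (B := univ) MeasurableSet.univ (by rwa [image_univ, hrange])
  let K₀ : Set (ℕ → ℕ) := range fun c => (j c).1.1
  have hK₀ : IsCompact K₀ :=
    isCompact_range (continuous_fst.comp (continuous_subtype_val.comp hj))
  let R : Set I01 := range fun c => (j c).1.2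
  have hRc : IsCompact R := isCompact_range (hcont.comp hj)
  let C : Set X := (⋃ a ∈ K₀, F a) ∩ q ⁻¹' R
  have hC : IsCompact C := (usco_compact hF hK₀).inter_right (hRc.isClosed.preimage hq)
  refine ⟨C, hC, ?_⟩
  have : CompactSpace C := isCompact_iff_compactSpace.1 hC
  -- `C` maps onto the Cantor space
  let γ : (ℕ → Bool) → I01 := fun c => (j c).1.2
  have hγ : Continuous γ := hcont.comp hj
  have hγi : Function.Injective γ := hinj
  have hγe : IsClosedEmbedding γ := hγ.isClosedEmbedding hγi
  let E := hγe.toIsEmbedding.toHomeomorph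
  have hqR : ∀ x : C, q x ∈ range γ := fun x => x.2.2
  let β : C → (ℕ → Bool) := fun x => E.symm ⟨q x, hqR x⟩
  have hβ : Continuous β := E.symm.continuous.comp
    ((hq.comp continuous_subtype_val).subtype_mk hqR)
  have hβs : Function.Surjective β := by
    intro c
    obtain ⟨x, hx, hxq⟩ := (j c).2
    have hxC : x ∈ C := ⟨mem_iUnion₂.2 ⟨(j c).1.1, ⟨c, rfl⟩, hx⟩, ⟨c, hxq.symm⟩⟩
    refine ⟨⟨x, hxC⟩, ?_⟩
    have h1 : (⟨q x, hqR ⟨x, hxC⟩⟩ : range γ) = E c := by
      apply Subtype.ext
      exact hxq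
    show E.symm ⟨q x, hqR ⟨x, hxC⟩⟩ = c
    rw [h1, E.symm_apply_apply]
  have : Nonempty I01 := ⟨⟨0, by norm_num, by norm_num⟩⟩
  obtain ⟨s, hs1, hs2⟩ := exists_nat_bool_continuous_surjective_of_compact I01
  exact not_scattered_of_onto (s ∘ β) (hs1.comp hβ) (hs2.comp hβs)

/-- A normal space with a compact subspace which is not scattered maps onto the interval. -/
theorem maps_onto_of_not_scattered {X : Type u} [TopologicalSpace X] [T3Space X] [NormalSpace X]
    {C : Set X} (hC : IsCompact C) (h : ¬ Scattered C) : MapsOntoI X := by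
  have : CompactSpace C := isCompact_iff_compactSpace.1 hC
  obtain ⟨C', hC', β, hβ, hβs⟩ := exists_onto_cantor hC.isClosed cechComplete_of_compact h
  have : Nonempty I01 := ⟨⟨0, by norm_num, by norm_num⟩⟩
  obtain ⟨s, hs1, hs2⟩ := exists_nat_bool_continuous_surjective_of_compact I01
  let g : C(C', ℝ) := ⟨fun x => (s (β x) : ℝ), continuous_subtype_val.comp (hs1.comp hβ)⟩
  obtain ⟨G, hG⟩ := g.exists_extension (hC'.isClosed.isClosedEmbedding_subtypeVal)
  refine ⟨fun x => Set.projIcc 0 1 zero_le_one (G x), continuous_projIcc.comp G.continuous, ?_⟩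
  intro t
  obtain ⟨c, rfl⟩ := hs2 t
  obtain ⟨x, rfl⟩ := hβs c
  refine ⟨x, ?_⟩
  have h1 : G x = (s (β x) : ℝ) := congrArg (fun φ : C(C', ℝ) => φ x) hG
  change Set.projIcc 0 1 zero_le_one (G x) = s (β x)
  rw [h1, Set.projIcc_val]

/-- Second part. -/
theorem tfaeB (X : Type u) [TopologicalSpace X] [T3Space X] (hX : KAnalytic X) :
    [(∃ (Z : Type u) (_ : TopologicalSpace Z), T3Space Z ∧ Pseudoradial Z ∧
        ∃ e : CpX X → Z, IsEmbedding e),
      FrechetUrysohnSpace (CpX X), ¬ MapsOntoI X,
      ∀ f : X → ℝ, Continuous f → (range f).Countable,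
      ∀ C : Set X, IsCompact C → Scattered C].TFAE := by
  have h := tfaeA X (power_lindelof hX) fun q hq => analytic_image hX hq
  have := lindelof_of_kAnalytic hX
  tfae_have 1 ↔ 2 := h.out 0 1
  tfae_have 2 ↔ 3 := h.out 1 2
  tfae_have 3 ↔ 4 := h.out 2 3
  tfae_have 3 → 5 := by
    intro h3 C hC
    by_contra h5
    exact h3 (maps_onto_of_not_scattered hC h5)
  tfae_have 5 → 3 := by
    intro h5 h3
    obtain ⟨C, hC, hn⟩ := exists_compact_not_scattered hX h3
    exact hn (h5 C hC)
  tfae_finish

end Pool.Agent.KS6_94.PS
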