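import Mathlib

/-!
# Upper semicontinuous compact-valued maps and K-analytic spaces
-/

set_option autoImplicit false

open Set Topology Filter TopologicalSpace MeasureTheory

universe u v w

namespace Pool.Agent.KS6_94.PS

/-- `F` is upper semicontinuous with compact values. -/
def Usco {P : Type v} {X : Type u} [TopologicalSpace P] [TopologicalSpace X] (F : P → Set X) :
    Prop :=
  (∀ a, IsCompact (F a)) ∧ ∀ a, ∀ U : Set X, IsOpen U → F a ⊆ U → ∀ᶠ b in 𝓝 a, F b ⊆ U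

variable {P : Type v} {X : Type u} [TopologicalSpace P] [TopologicalSpace X]

theorem usco_lindelof [SecondCountableTopology P] {F : P → Set X} (hF : Usco F)
    (hu : ⋃ a, F a = univ) : LindelofSpace X := by
  classical
  refine ⟨isLindelof_of_countable_subcover ?_⟩
  intro ι U hU hcov
  have h1 : ∀ a : P, ∃ t : Finset ι, F a ⊆ ⋃ i ∈ t, U i := fun a =>
    (hF.1 a).elim_finite_subcover U hU ((subset_univ _).trans hcov)
  choose t ht using h1
  have h2 : ∀ a : P, {b | F b ⊆ ⋃ i ∈ t a, U i} ∈ 𝓝 a := fun a =>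
    hF.2 a _ (isOpen_biUnion fun i _ => hU i) (ht a)
  obtain ⟨s, hs, hs'⟩ := TopologicalSpace.countable_cover_nhds h2
  refine ⟨⋃ a ∈ s, (t a : Set ι), hs.biUnion fun a _ => (t a).countable_toSet, ?_⟩
  intro x _
  obtain ⟨b, hb⟩ := mem_iUnion.1 (by rw [hu]; exact mem_univ x : x ∈ ⋃ a, F a)
  obtain ⟨a, ha, hab⟩ := mem_iUnion₂.1 (by rw [hs']; exact mem_univ b :
    b ∈ ⋃ a ∈ s, {b | F b ⊆ ⋃ i ∈ t a, U i})
  obtain ⟨i, hi, hxi⟩ := mem_iUnion₂.1 (hab hb)
  exact mem_iUnion₂.2 ⟨i, mem_iUnion₂.2 ⟨a, ha, hi⟩, hxi⟩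

theorem usco_prod {Q : Type w} {Y : Type*} [TopologicalSpace Q] [TopologicalSpace Y]
    {F : P → Set X} {G : Q → Set Y} (hF : Usco F) (hG : Usco G) :
    Usco (fun p : P × Q => F p.1 ×ˢ G p.2) := by
  refine ⟨fun a => (hF.1 a.1).prod (hG.1 a.2), ?_⟩
  intro a U hU haU
  obtain ⟨V, W, hV, hW, hFV, hGW, hVW⟩ := generalized_tube_lemma (hF.1 a.1) (hG.1 a.2) hU haU
  have h1 := hF.2 a.1 V hV hFV
  have h2 := hG.2 a.2 W hW hGW
  rw [nhds_prod_eq]
  filter_upwards [h1.prod_mk h2] with b hb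
  exact (Set.prod_mono hb.1 hb.2).trans hVW

theorem usco_image {Y : Type*} [TopologicalSpace Y] {F : P → Set X} (hF : Usco F) {c : X → Y}
    (hc : Continuous c) : Usco (fun p => c '' F p) := by
  refine ⟨fun a => (hF.1 a).image hc, ?_⟩
  intro a U hU haU
  filter_upwards [hF.2 a _ (hU.preimage hc) (image_subset_iff.1 haU)] with b hb
  exact image_subset_iff.2 hb

/-- The union of the values over a compact set is compact. -/
theorem usco_compact {F : P → Set X} (hF : Usco F) {C : Set P} (hC : IsCompact C) :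
    IsCompact (⋃ a ∈ C, F a) := by
  classical
  refine isCompact_of_finite_subcover ?_
  intro ι U hU hcov
  have h1 : ∀ a : P, ∃ t : Finset ι, a ∈ C → F a ⊆ ⋃ i ∈ t, U i := by
    intro a
    by_cases ha : a ∈ C
    · obtain ⟨t, ht⟩ := (hF.1 a).elim_finite_subcover U hU
        ((subset_biUnion_of_mem (u := fun a => F a) ha).trans hcov)
      exact ⟨t, fun _ => ht⟩
    · exact ⟨∅, fun h => absurd h ha⟩
  choose t ht using h1
  obtain ⟨s, hsC, hs⟩ := hC.elim_nhds_subcover (fun a => {b | F b ⊆ ⋃ i ∈ t a, U i}) fun a ha =>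
    hF.2 a _ (isOpen_biUnion fun i _ => hU i) (ht a ha)
  refine ⟨s.biUnion t, ?_⟩
  intro x hx
  obtain ⟨b, hb, hxb⟩ := mem_iUnion₂.1 hx
  obtain ⟨a, ha, hab⟩ := mem_iUnion₂.1 (hs hb)
  obtain ⟨i, hi, hxi⟩ := mem_iUnion₂.1 (hab hxb)
  exact mem_iUnion₂.2 ⟨i, Finset.mem_biUnion.2 ⟨a, ha, hi⟩, hxi⟩

/-- The graph of an upper semicontinuous compact-valued map is closed. -/
theorem usco_graph {Y : Type*} [TopologicalSpace Y] [T2Space Y] {G : P → Set Y} (hG : Usco G) :
    IsClosed {z : P × Y | z.2 ∈ G z.1} := by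
  rw [← isOpen_compl_iff, isOpen_iff_mem_nhds]
  rintro ⟨a, y⟩ hay
  have hay' : y ∉ G a := hay
  obtain ⟨U, V, hU, hV, hGU, hyV, hUV⟩ := (hG.1 a).separation_of_notMem hay'
  rw [nhds_prod_eq]
  filter_upwards [(hG.2 a U hU hGU).prod_mk (hV.mem_nhds hyV)] with z hz hzG
  exact Set.disjoint_left.1 hUV (hz.1 hzG) hz.2

/-- `X` is K-analytic: it is the union of the values of an upper semicontinuous compact-valued map
on the Baire space. -/
def KAnalytic (X : Type u) [TopologicalSpace X] : Prop :=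
  ∃ F : (ℕ → ℕ) → Set X, (∀ a, IsCompact (F a)) ∧
    (∀ a, ∀ U : Set X, IsOpen U → F a ⊆ U → ∀ᶠ b in 𝓝 a, F b ⊆ U) ∧ ⋃ a, F a = univ

theorem power_usco (h : KAnalytic X) (n : ℕ) : ∃ (P : Type) (_ : TopologicalSpace P)
    (_ : SecondCountableTopology P) (G : P → Set (Fin n → X)), Usco G ∧ ⋃ a, G a = univ := by
  obtain ⟨F, hF1, hF2, hF3⟩ := h
  have hF : Usco F := ⟨hF1, hF2⟩
  induction n with
  | zero =>
    refine ⟨Unit, inferInstance, inferInstance, fun _ => univ, ⟨fun _ => ?_, fun a U _ hU => ?_⟩,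
      ?_⟩
    · exact isCompact_univ
    · exact Eventually.of_forall fun _ => hU
    · exact iUnion_const _
  | succ n ih =>
    obtain ⟨P, _, _, G, hG, hGu⟩ := ih
    have hc : Continuous (fun z : X × (Fin n → X) => (Fin.cons z.1 z.2 : Fin (n + 1) → X)) := by
      refine continuous_pi fun i => ?_
      refine Fin.cases ?_ (fun j => ?_) i
      · exact continuous_fst
      · exact (continuous_apply j).comp continuous_snd
    refine ⟨(ℕ → ℕ) × P, inferInstance, inferInstance, _, usco_image (usco_prod hF hG) hc, ?_⟩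
    rw [eq_univ_iff_forall]
    intro x
    obtain ⟨a, ha⟩ := mem_iUnion.1 (by rw [hF3]; exact mem_univ (x 0) : x 0 ∈ ⋃ a, F a)
    obtain ⟨b, hb⟩ := mem_iUnion.1 (by rw [hGu]; exact mem_univ _ :
      (fun j : Fin n => x j.succ) ∈ ⋃ a, G a)
    refine mem_iUnion.2 ⟨(a, b), (x 0, fun j => x j.succ), ⟨ha, hb⟩, ?_⟩
    funext i
    refine Fin.cases rfl (fun j => rfl) i

theorem power_lindelof (h : KAnalytic X) (n : ℕ) : LindelofSpace (Fin n → X) := by
  obtain ⟨P, _, _, G, hG, hGu⟩ := power_usco h n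
  exact usco_lindelof hG hGu

theorem lindelof_of_kAnalytic (h : KAnalytic X) : LindelofSpace X := by
  obtain ⟨F, hF1, hF2, hF3⟩ := h
  exact usco_lindelof ⟨hF1, hF2⟩ hF3

/-- Continuous images of K-analytic spaces in Polish spaces are analytic. -/
theorem analytic_image (h : KAnalytic X) {Y : Type*} [TopologicalSpace Y] [PolishSpace Y]
    {q : X → Y} (hq : Continuous q) : AnalyticSet (range q) := by
  obtain ⟨F, hF1, hF2, hF3⟩ := h
  have hF : Usco F := ⟨hF1, hF2⟩
  have h1 := usco_graph (usco_image hF hq)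
  have h2 : range q = Prod.snd '' {z : (ℕ → ℕ) × Y | z.2 ∈ q '' F z.1} := by
    ext y
    constructor
    · rintro ⟨x, rfl⟩
      obtain ⟨a, ha⟩ := mem_iUnion.1 (by rw [hF3]; exact mem_univ x : x ∈ ⋃ a, F a)
      exact ⟨(a, q x), ⟨x, ha, rfl⟩, rfl⟩
    · rintro ⟨⟨a, y'⟩, ⟨x, _, hx⟩, rfl⟩
      exact ⟨x, hx⟩
  rw [h2]
  exact h1.analyticSet.image_of_continuous continuous_snd

end Pool.Agent.KS6_94.PS
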